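import Pool.Agent.VM.Stmts

/-!
RES: rescaling. The decoupling inequality for a residue class modulo `p ^ i` follows from the
decoupling inequality for all integers.
-/

set_option autoImplicit false

namespace Pool.Agent.VM.H91

open Pool.Agent.Helper69_Weyl

theorem tri_pos {k : ℕ} (hk : 1 ≤ k) : 1 ≤ tri k := by
  unfold tri
  have : 2 ≤ k * (k + 1) := by nlinarith
  omega

/-- an integral shift of the argument does not change `ee` -/
theorem ee_shift (x : ℝ) (n : ℤ) : ee (x + n) = ee x := by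
  rw [ee_add, ee_int, mul_one]

theorem av_congr {q l : ℕ} {Φ Ψ : (Fin l → ℤ) → ℝ} (h : ∀ ζ, Φ ζ = Ψ ζ) :
    Av q l Φ = Av q l Ψ := by
  have : Φ = Ψ := funext h
  rw [this]

theorem av_nonneg {q l : ℕ} {Φ : (Fin l → ℤ) → ℝ} (h : ∀ ζ, 0 ≤ Φ ζ) : 0 ≤ Av q l Φ := by
  unfold Av
  exact div_nonneg (Finset.sum_nonneg fun _ _ => h _) (by positivity)

theorem av_one {q l : ℕ} {Φ : (Fin l → ℤ) → ℝ} (h : ∀ ζ, Φ ζ = 0) : Av q l Φ = 0 := by
  unfold Av
  rw [Finset.sum_eq_zero fun _ _ => h _, zero_div]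

theorem mom_nonneg {q l : ℕ} {E : Fin l → ℤ → ℤ} {r : ℕ} {s : Finset ℤ} {w : ℤ → ℂ} :
    0 ≤ mom q E r s w := av_nonneg fun _ => by positivity

theorem sq_nonneg' {q l : ℕ} {E : Fin l → ℤ → ℤ} {r m : ℕ} {s : Finset ℤ} {w : ℤ → ℂ} :
    0 ≤ Sq q E r m s w :=
  Finset.sum_nonneg fun _ _ => Real.rpow_nonneg mom_nonneg _

/-- the mean of the translated sum alone -/
theorem mom_tr (tra : TraStmt) (q k r : ℕ) (c : ℤ) (s : Finset ℤ) (w : ℤ → ℂ) (hq : 0 < q) :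
    mom q (mc 0 k) r s w = mom q (mc 0 k) r (tr c s) (tw c w) := by
  have h := tra q k c s s w w (2 * r) 0 hq
  simpa [mom] using h

theorem inCl_tr {m : ℕ} {c : ℤ} {s : Finset ℤ} (d : ℤ) (h : InCl m c s) :
    InCl m (c - d) (tr d s) := by
  intro x hx
  obtain ⟨y, hy, rfl⟩ := Finset.mem_image.mp hx
  exact (h y hy).sub_right d

/-- the periodicity of the norm of `G` -/
theorem per_G (gpr : GprStmt) (q l : ℕ) (E : Fin l → ℤ → ℤ) (s : Finset ℤ) (w : ℤ → ℂ)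
    (hq : 0 < q) : Per q l (fun α => ‖G q E s w α‖) := by
  intro ζ v
  simp only [gpr q l E s w hq ζ v]

/-- the local form of the exponential sum in a class modulo `p ^ i` -/
theorem G_scale (p k m i : ℕ) (hp : 0 < p) (s : Finset ℤ) (w : ℤ → ℂ)
    (α ζ : Fin k → ℤ) (t : Finset ℤ) (hst : s = t.image (fun y => ((p : ℤ) ^ i) * y)) :
    G (p ^ (k * (m + i))) (mc 0 k) s w
        (fun j => α j + (p : ℤ) ^ (i * (k - ((j : ℕ) + 1))) * ζ j) =
      G (p ^ (k * m)) (mc 0 k) t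
        (fun y => w ((p : ℤ) ^ i * y) *
          ee (((∑ j, α j * mc 0 k j ((p : ℤ) ^ i * y) : ℤ) : ℝ) /
            ((p ^ (k * (m + i)) : ℕ) : ℝ))) ζ := by
  have hp' : (p : ℤ) ^ i ≠ 0 := pow_ne_zero _ (by exact_mod_cast hp.ne')
  unfold G
  rw [hst, Finset.sum_image (by intro a _ b _ h; exact mul_left_cancel₀ hp' h)]
  refine Finset.sum_congr rfl fun y _ => ?_
  rw [mul_assoc (w _), ← ee_add]
  congr 2
  have hR : ((p ^ (k * (m + i)) : ℕ) : ℝ) = (p : ℝ) ^ (k * m) * (p : ℝ) ^ (k * i) := by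
    push_cast
    rw [mul_add, pow_add]
  have hpR : (p : ℝ) ≠ 0 := by exact_mod_cast hp.ne'
  have key : (∑ j, ((α j + (p : ℤ) ^ (i * (k - ((j : ℕ) + 1))) * ζ j) *
        mc 0 k j ((p : ℤ) ^ i * y)) : ℤ) =
      (∑ j, α j * mc 0 k j ((p : ℤ) ^ i * y)) + (p : ℤ) ^ (k * i) * ∑ j, ζ j * mc 0 k j y := by
    rw [Finset.mul_sum, ← Finset.sum_add_distrib]
    refine Finset.sum_congr rfl fun j _ => ?_
    have hj : (j : ℕ) + 1 ≤ k := j.2
    have e : (p : ℤ) ^ (i * (k - ((j : ℕ) + 1))) * (((p : ℤ) ^ i * y) ^ (0 + (j : ℕ) + 1)) =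
        (p : ℤ) ^ (k * i) * y ^ (0 + (j : ℕ) + 1) := by
      rw [mul_pow, ← pow_mul, ← mul_assoc, ← pow_add]
      congr 2
      rw [zero_add, ← mul_add]
      rw [Nat.sub_add_cancel hj, mul_comm]
    simp only [mc]
    calc _ = α j * ((p : ℤ) ^ i * y) ^ (0 + (j : ℕ) + 1) +
          ζ j * ((p : ℤ) ^ (i * (k - ((j : ℕ) + 1))) *
            (((p : ℤ) ^ i * y) ^ (0 + (j : ℕ) + 1))) := by ring
      _ = _ := by rw [e]; ring
  rw [key, hR]
  push_cast
  field_simp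

theorem res0 (p k : ℕ) (hp : p.Prime) (hk : 1 ≤ k) (lgl : LglStmt) (gpr : GprStmt)
    (m i : ℕ) (C : ℝ) (hC : 0 ≤ C) (hD : Dec p k m C) (s : Finset ℤ) (w : ℤ → ℂ)
    (hs : InCl (p ^ i) 0 s) :
    mom (p ^ (k * (m + i))) (mc 0 k) (tri k) s w ≤
      C * (Sq (p ^ (k * (m + i))) (mc 0 k) (tri k) (p ^ (m + i)) s w) ^ (tri k) := by
  have hp0 : 0 < p := hp.pos
  have hpz : (p : ℤ) ^ i ≠ 0 := pow_ne_zero _ (by exact_mod_cast hp0.ne')
  have hq : 0 < p ^ (k * (m + i)) := by positivity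
  have hq' : 0 < p ^ (k * m) := by positivity
  -- the scaled set
  obtain ⟨t, hst⟩ : ∃ t : Finset ℤ, s = t.image (fun y => ((p : ℤ) ^ i) * y) := by
    refine ⟨s.image (fun x => x / (p : ℤ) ^ i), ?_⟩
    ext x
    simp only [Finset.mem_image, exists_exists_and_eq_and]
    have hdvd : ∀ x ∈ s, ((p : ℤ) ^ i) ∣ x := by
      intro x hx
      have h := hs x hx
      have h2 := (Int.modEq_zero_iff_dvd).mp h
      simpa using h2
    constructor
    · intro hx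
      exact ⟨x, hx, Int.mul_ediv_cancel' (hdvd x hx)⟩
    · rintro ⟨a, ha, rfl⟩
      rw [Int.mul_ediv_cancel' (hdvd a ha)]
      exact ha
  have hcl : ∀ c : ℤ, cl (p ^ (m + i)) ((p : ℤ) ^ i * c) s =
      (cl (p ^ m) c t).image (fun y => ((p : ℤ) ^ i) * y) := by
    intro c
    ext x
    simp only [cl, Finset.mem_filter, hst, Finset.mem_image]
    have hmod : ∀ y : ℤ, (p : ℤ) ^ i * y ≡ (p : ℤ) ^ i * c [ZMOD ((p ^ (m + i) : ℕ) : ℤ)] ↔
        y ≡ c [ZMOD ((p ^ m : ℕ) : ℤ)] := by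
      intro y
      rw [Int.modEq_iff_dvd, Int.modEq_iff_dvd, ← mul_sub]
      push_cast
      rw [pow_add, mul_comm ((p : ℤ) ^ m)]
      exact mul_dvd_mul_iff_left hpz
    constructor
    · rintro ⟨⟨y, hy, rfl⟩, h⟩
      exact ⟨y, ⟨hy, (hmod y).mp h⟩, rfl⟩
    · rintro ⟨y, ⟨hy, h⟩, rfl⟩
      exact ⟨⟨y, hy, rfl⟩, (hmod y).mpr h⟩
  have main := lgl (p ^ (k * (m + i))) (p ^ (k * m)) k k (tri k) C (Finset.range (p ^ m))
    (fun α => G (p ^ (k * (m + i))) (mc 0 k) s w α)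
    (fun c α => G (p ^ (k * (m + i))) (mc 0 k)
      (cl (p ^ (m + i)) ((p : ℤ) ^ i * (c : ℤ)) s) w α)
    (fun _ => 1) (fun ζ j => (p : ℤ) ^ (i * (k - ((j : ℕ) + 1))) * ζ j)
    hq hq' (tri_pos hk) hC (fun _ => zero_le_one)
    (per_G gpr _ _ _ _ _ hq) (fun c => per_G gpr _ _ _ _ _ hq) (fun _ _ => rfl)
    (fun _ _ => rfl) ?_
  · simp only [one_mul] at main
    refine main.trans ?_
    refine mul_le_mul_of_nonneg_left ?_ hC
    refine pow_le_pow_left₀ (Finset.sum_nonneg fun _ _ => Real.rpow_nonneg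
      (av_nonneg fun _ => by positivity) _) ?_ _
    unfold Sq
    -- the classes divisible by `p ^ i` are among all classes
    have hinj : Set.InjOn (fun c : ℕ => p ^ i * c) (Finset.range (p ^ m) : Set ℕ) := by
      intro a _ b _ h
      exact Nat.eq_of_mul_eq_mul_left (by positivity) h
    calc ∑ c ∈ Finset.range (p ^ m), (Av (p ^ (k * (m + i))) k (fun α =>
            ‖G (p ^ (k * (m + i))) (mc 0 k)
              (cl (p ^ (m + i)) ((p : ℤ) ^ i * (c : ℤ)) s) w α‖ ^ (2 * tri k))) ^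
            (1 / (tri k : ℝ))
        = ∑ c ∈ Finset.range (p ^ m), (mom (p ^ (k * (m + i))) (mc 0 k) (tri k)
            (cl (p ^ (m + i)) (((p ^ i * c : ℕ)) : ℤ) s) w) ^ (1 / (tri k : ℝ)) := by
          refine Finset.sum_congr rfl fun c _ => ?_
          unfold mom
          push_cast
          rfl
      _ = ∑ c ∈ (Finset.range (p ^ m)).image (fun c : ℕ => p ^ i * c),
            (mom (p ^ (k * (m + i))) (mc 0 k) (tri k)
            (cl (p ^ (m + i)) ((c : ℕ) : ℤ) s) w) ^ (1 / (tri k : ℝ)) := by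
          rw [Finset.sum_image hinj]
      _ ≤ _ := by
          refine Finset.sum_le_sum_of_subset_of_nonneg ?_ fun _ _ _ =>
            Real.rpow_nonneg mom_nonneg _
          intro x hx
          obtain ⟨c, hc, rfl⟩ := Finset.mem_image.mp hx
          rw [Finset.mem_range] at hc ⊢
          rw [pow_add, mul_comm (p ^ m)]
          exact (Nat.mul_lt_mul_left (by positivity)).mpr hc
  · intro α
    have h := hD t (fun y => w ((p : ℤ) ^ i * y) *
          ee (((∑ j, α j * mc 0 k j ((p : ℤ) ^ i * y) : ℤ) : ℝ) /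
            ((p ^ (k * (m + i)) : ℕ) : ℝ)))
    unfold mom Sq mom at h
    have e1 : ∀ ζ : Fin k → ℤ, G (p ^ (k * (m + i))) (mc 0 k) s w
        (fun j => α j + (p : ℤ) ^ (i * (k - ((j : ℕ) + 1))) * ζ j) =
      G (p ^ (k * m)) (mc 0 k) t
        (fun y => w ((p : ℤ) ^ i * y) *
          ee (((∑ j, α j * mc 0 k j ((p : ℤ) ^ i * y) : ℤ) : ℝ) /
            ((p ^ (k * (m + i)) : ℕ) : ℝ))) ζ := fun ζ =>
      G_scale p k m i hp0 s w α ζ t hst
    have e2 : ∀ (c : ℕ) (ζ : Fin k → ℤ), G (p ^ (k * (m + i))) (mc 0 k)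
        (cl (p ^ (m + i)) ((p : ℤ) ^ i * (c : ℤ)) s) w
        (fun j => α j + (p : ℤ) ^ (i * (k - ((j : ℕ) + 1))) * ζ j) =
      G (p ^ (k * m)) (mc 0 k) (cl (p ^ m) (c : ℤ) t)
        (fun y => w ((p : ℤ) ^ i * y) *
          ee (((∑ j, α j * mc 0 k j ((p : ℤ) ^ i * y) : ℤ) : ℝ) /
            ((p ^ (k * (m + i)) : ℕ) : ℝ))) ζ := fun c ζ =>
      G_scale p k m i hp0 _ w α ζ _ (hcl c)
    simp only [e1, e2]
    exact h

theorem res (p k : ℕ) (hp : p.Prime) (hk : 1 ≤ k) (tra : TraStmt) (lgl : LglStmt)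
    (gpr : GprStmt) (sqt : SqtStmt) : ResStmt p k := by
  intro m i C hC hD c s w hs
  have hq : 0 < p ^ (k * (m + i)) := by have := hp.pos; positivity
  have hm : 0 < p ^ (m + i) := by have := hp.pos; positivity
  rw [mom_tr tra _ k (tri k) c s w hq, ← sqt _ k (tri k) (p ^ (m + i)) c s w hq hm (tri_pos hk)]
  refine res0 p k hp hk lgl gpr m i C hC hD _ _ ?_
  have h := inCl_tr c hs
  rwa [sub_self] at h

end Pool.Agent.VM.H91
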