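import Pool.Agent.VM.Stmts
import Pool.Agent.Helper91_VM.Res

/-!
LMA: lower degree decoupling in the bilinear inequality.
-/

set_option autoImplicit false

namespace Pool.Agent.VM.H91

open Pool.Agent.Helper69_Weyl

/-- the local directions: the last `l` coordinates, in steps of `p ^ (k n - M)` -/
def loc (p K M k l : ℕ) (ζ : Fin l → ℤ) : Fin k → ℤ := fun j =>
  if h : k - l ≤ (j : ℕ) ∧ (j : ℕ) - (k - l) < l then
    (p : ℤ) ^ (K - M) * ζ ⟨(j : ℕ) - (k - l), h.2⟩ else 0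

/-- the sum over the last `l` coordinates -/
theorem sum_loc (p K M k l : ℕ) (hlk : l ≤ k) (ζ : Fin l → ℤ) (x : ℤ) :
    ∑ j, loc p K M k l ζ j * mc 0 k j x = (p : ℤ) ^ (K - M) * ∑ i, ζ i * mc (k - l) l i x := by
  obtain ⟨m, rfl⟩ : ∃ m, k = m + l := ⟨k - l, by omega⟩
  rw [Fin.sum_univ_add]
  have h1 : ∀ i : Fin m, loc p K M (m + l) l ζ (Fin.castAdd l i) *
      mc 0 (m + l) (Fin.castAdd l i) x = 0 := by
    intro i
    unfold loc
    have : ¬ (m + l - l ≤ ((Fin.castAdd l i : Fin (m + l)) : ℕ) ∧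
        ((Fin.castAdd l i : Fin (m + l)) : ℕ) - (m + l - l) < l) := by
      rw [Fin.val_castAdd]
      have := i.2
      omega
    rw [dif_neg this, zero_mul]
  rw [Finset.sum_eq_zero fun i _ => h1 i, zero_add, Finset.mul_sum]
  refine Finset.sum_congr rfl fun i _ => ?_
  unfold loc
  have hc : (m + l - l ≤ ((Fin.natAdd m i : Fin (m + l)) : ℕ) ∧
      ((Fin.natAdd m i : Fin (m + l)) : ℕ) - (m + l - l) < l) := by
    rw [Fin.val_natAdd]
    have := i.2
    omega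
  rw [dif_pos hc]
  have hi : (⟨((Fin.natAdd m i : Fin (m + l)) : ℕ) - (m + l - l), hc.2⟩ : Fin l) = i := by
    apply Fin.ext
    simp
  rw [hi]
  have he : mc 0 (m + l) (Fin.natAdd m i) x = mc (m + l - l) l i x := by
    simp only [mc, Fin.val_natAdd, zero_add, Nat.add_sub_cancel]
  rw [he, mul_assoc]

/-- the local form of the exponential sum -/
theorem G_loc (p K M k l : ℕ) (hp : 0 < p) (hlk : l ≤ k) (hMK : M ≤ K) (s : Finset ℤ)
    (w : ℤ → ℂ) (α : Fin k → ℤ) (ζ : Fin l → ℤ) :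
    G (p ^ K) (mc 0 k) s w (fun j => α j + loc p K M k l ζ j) =
      G (p ^ M) (mc (k - l) l) s (fun x => w x *
        ee (((∑ j, α j * mc 0 k j x : ℤ) : ℝ) / ((p ^ K : ℕ) : ℝ))) ζ := by
  unfold G
  refine Finset.sum_congr rfl fun x _ => ?_
  rw [mul_assoc (w x), ← ee_add]
  congr 2
  have key : (∑ j, (α j + loc p K M k l ζ j) * mc 0 k j x : ℤ) =
      (∑ j, α j * mc 0 k j x) + (p : ℤ) ^ (K - M) * ∑ i, ζ i * mc (k - l) l i x := by
    rw [← sum_loc p K M k l hlk ζ x, ← Finset.sum_add_distrib]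
    exact Finset.sum_congr rfl fun j _ => by ring
  rw [key]
  have hpR : (p : ℝ) ≠ 0 := by exact_mod_cast hp.ne'
  have hK : ((p ^ K : ℕ) : ℝ) = (p : ℝ) ^ (K - M) * (p : ℝ) ^ M := by
    push_cast
    rw [← pow_add, Nat.sub_add_cancel hMK]
  rw [hK]
  push_cast
  field_simp

/-- the exponential sum over a class of `0` does not change in the local directions -/
theorem G_inv (p K b k l : ℕ) (hp : 0 < p) (hlk : l ≤ k) (hMK : (k - l + 1) * b ≤ K)
    (s : Finset ℤ) (w : ℤ → ℂ) (hs : InCl (p ^ b) 0 s) (α : Fin k → ℤ) (ζ : Fin l → ℤ) :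
    G (p ^ K) (mc 0 k) s w (fun j => α j + loc p K ((k - l + 1) * b) k l ζ j) =
      G (p ^ K) (mc 0 k) s w α := by
  unfold G
  refine Finset.sum_congr rfl fun x hx => ?_
  have key : (∑ j, (α j + loc p K ((k - l + 1) * b) k l ζ j) * mc 0 k j x : ℤ) =
      (∑ j, α j * mc 0 k j x) +
        (p : ℤ) ^ (K - (k - l + 1) * b) * ∑ i, ζ i * mc (k - l) l i x := by
    rw [← sum_loc p K _ k l hlk ζ x, ← Finset.sum_add_distrib]
    exact Finset.sum_congr rfl fun j _ => by ring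
  have hdvd : (p : ℤ) ^ b ∣ x := by
    have h2 := (Int.modEq_zero_iff_dvd).mp (hs x hx)
    simpa using h2
  have hd : (p : ℤ) ^ ((k - l + 1) * b) ∣ ∑ i, ζ i * mc (k - l) l i x := by
    refine Finset.dvd_sum fun i _ => Dvd.dvd.mul_left ?_ _
    unfold mc
    have h3 : ((p : ℤ) ^ b) ^ (k - l + (i : ℕ) + 1) ∣ x ^ (k - l + (i : ℕ) + 1) :=
      pow_dvd_pow_of_dvd hdvd _
    refine dvd_trans ?_ h3
    rw [← pow_mul]
    refine pow_dvd_pow _ ?_
    rw [mul_comm b]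
    exact Nat.mul_le_mul_right _ (by omega)
  obtain ⟨z, hz⟩ := hd
  rw [key, hz]
  congr 1
  have hpR : (p : ℝ) ≠ 0 := by exact_mod_cast hp.ne'
  have hK : ((p ^ K : ℕ) : ℝ) = (p : ℝ) ^ (K - (k - l + 1) * b) * (p : ℝ) ^ ((k - l + 1) * b) := by
    push_cast
    rw [← pow_add, Nat.sub_add_cancel hMK]
  have h4 : (((∑ j, α j * mc 0 k j x) +
      (p : ℤ) ^ (K - (k - l + 1) * b) * ((p : ℤ) ^ ((k - l + 1) * b) * z) : ℤ) : ℝ) /
        ((p ^ K : ℕ) : ℝ) =
      ((∑ j, α j * mc 0 k j x : ℤ) : ℝ) / ((p ^ K : ℕ) : ℝ) + (z : ℝ) := by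
    rw [hK]
    push_cast
    field_simp
  rw [h4, ee_shift]

theorem lma0 (p k l : ℕ) (hp : p.Prime) (hl : 1 ≤ l) (hlk : l < k) (sqn : SqnStmt)
    (lgl : LglStmt) (gpr : GprStmt) (n a a' b : ℕ) (B D : ℝ) (hB : 0 ≤ B) (hD : 0 ≤ D)
    (ha : 1 ≤ a) (haa : a ≤ a') (han : a' ≤ n) (hbn : b ≤ n)
    (ldc : ∀ c : ℤ, ¬ (p : ℤ) ∣ c → ∀ (s : Finset ℤ) (w : ℤ → ℂ), InCl (p ^ a) c s →
      mom (p ^ ((k - l + 1) * b)) (mc (k - l) l) (tri l) s w ≤
        D * (Sq (p ^ ((k - l + 1) * b)) (mc (k - l) l) (tri l) (p ^ a') s w) ^ (tri l))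
    (hbil : Bil p k l n a' b B) (u : ℤ) (hu : ¬ (p : ℤ) ∣ u) (s s' : Finset ℤ)
    (w w' : ℤ → ℂ) (hs : InCl (p ^ a) u s) (hs' : InCl (p ^ b) 0 s') :
    Av (p ^ (k * n)) k (fun ζ => ‖G (p ^ (k * n)) (mc 0 k) s w ζ‖ ^ (2 * tri l) *
        ‖G (p ^ (k * n)) (mc 0 k) s' w' ζ‖ ^ (2 * (tri k - tri l))) ≤
      D * B * (Sq (p ^ (k * n)) (mc 0 k) (tri k) (p ^ n) s w) ^ (tri l) *
        (Sq (p ^ (k * n)) (mc 0 k) (tri k) (p ^ n) s' w') ^ (tri k - tri l) := by
  have hp0 : 0 < p := hp.pos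
  have hq : 0 < p ^ (k * n) := by positivity
  have hr : 1 ≤ tri l := tri_pos hl
  have hk : 1 ≤ k := by omega
  have hMK : (k - l + 1) * b ≤ k * n := Nat.mul_le_mul (by omega) hbn
  have hq' : 0 < p ^ ((k - l + 1) * b) := by positivity
  set S' := Sq (p ^ (k * n)) (mc 0 k) (tri k) (p ^ n) s' w' with hS'
  have hS'0 : 0 ≤ S' := sq_nonneg'
  have main := lgl (p ^ (k * n)) (p ^ ((k - l + 1) * b)) k l (tri l) D (Finset.range (p ^ a'))
    (fun α => G (p ^ (k * n)) (mc 0 k) s w α)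
    (fun c α => G (p ^ (k * n)) (mc 0 k) (cl (p ^ a') (c : ℤ) s) w α)
    (fun α => ‖G (p ^ (k * n)) (mc 0 k) s' w' α‖ ^ (2 * (tri k - tri l)))
    (loc p (k * n) ((k - l + 1) * b) k l)
    hq hq' hr hD (fun _ => by positivity)
    (per_G gpr _ _ _ _ _ hq) (fun c => per_G gpr _ _ _ _ _ hq)
    (fun ζ v => by
      have h := per_G gpr _ k (mc 0 k) s' w' hq ζ v
      simp only at h
      simp only [h])
    (fun α ζ => by
      simp only [G_inv p (k * n) b k l hp0 hlk.le hMK s' w' hs' α ζ])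
    (fun α => by
      have h := ldc u hu s (fun x => w x *
        ee (((∑ j, α j * mc 0 k j x : ℤ) : ℝ) / ((p ^ (k * n) : ℕ) : ℝ))) hs
      unfold mom Sq mom at h
      simp only [G_loc p (k * n) ((k - l + 1) * b) k l hp0 hlk.le hMK]
      exact h)
  have hswap : Av (p ^ (k * n)) k (fun ζ => ‖G (p ^ (k * n)) (mc 0 k) s w ζ‖ ^ (2 * tri l) *
        ‖G (p ^ (k * n)) (mc 0 k) s' w' ζ‖ ^ (2 * (tri k - tri l))) =
      Av (p ^ (k * n)) k (fun ζ => ‖G (p ^ (k * n)) (mc 0 k) s' w' ζ‖ ^ (2 * (tri k - tri l)) *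
        ‖G (p ^ (k * n)) (mc 0 k) s w ζ‖ ^ (2 * tri l)) := av_congr fun ζ => mul_comm _ _
  rw [hswap]
  refine main.trans ?_
  -- the bound for each class
  have hcls : ∀ c ∈ Finset.range (p ^ a'),
      (Av (p ^ (k * n)) k (fun α => ‖G (p ^ (k * n)) (mc 0 k) s' w' α‖ ^ (2 * (tri k - tri l)) *
        ‖G (p ^ (k * n)) (mc 0 k) (cl (p ^ a') (c : ℤ) s) w α‖ ^ (2 * tri l))) ^
          (1 / (tri l : ℝ)) ≤
      B ^ (1 / (tri l : ℝ)) * (S' ^ (tri k - tri l)) ^ (1 / (tri l : ℝ)) *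
        Sq (p ^ (k * n)) (mc 0 k) (tri k) (p ^ n) (cl (p ^ a') (c : ℤ) s) w := by
    intro c _
    have hQ0 : 0 ≤ Sq (p ^ (k * n)) (mc 0 k) (tri k) (p ^ n) (cl (p ^ a') (c : ℤ) s) w :=
      sq_nonneg'
    have hr0 : (tri l : ℝ) ≠ 0 := by
      have : (0 : ℝ) < tri l := by exact_mod_cast hr
      exact this.ne'
    have hb : Av (p ^ (k * n)) k (fun α =>
        ‖G (p ^ (k * n)) (mc 0 k) s' w' α‖ ^ (2 * (tri k - tri l)) *
        ‖G (p ^ (k * n)) (mc 0 k) (cl (p ^ a') (c : ℤ) s) w α‖ ^ (2 * tri l)) ≤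
        B * (S' ^ (tri k - tri l)) *
        (Sq (p ^ (k * n)) (mc 0 k) (tri k) (p ^ n) (cl (p ^ a') (c : ℤ) s) w) ^ (tri l) := by
      by_cases hpc : (p : ℤ) ∣ (c : ℤ)
      · -- the class is empty
        have hemp : cl (p ^ a') (c : ℤ) s = ∅ := by
          rw [Finset.eq_empty_iff_forall_notMem]
          intro x hx
          obtain ⟨hx1, hx2⟩ := Finset.mem_filter.mp hx
          apply hu
          have hpa : (p : ℤ) ∣ ((p ^ a : ℕ) : ℤ) := by
            push_cast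
            exact dvd_pow_self _ (by omega)
          have hpa' : (p : ℤ) ∣ ((p ^ a' : ℕ) : ℤ) := by
            push_cast
            exact dvd_pow_self _ (by omega)
          have h1 : x ≡ u [ZMOD (p : ℤ)] := (hs x hx1).of_dvd hpa
          have h2 : x ≡ (c : ℤ) [ZMOD (p : ℤ)] := hx2.of_dvd hpa'
          have h3 : u ≡ 0 [ZMOD (p : ℤ)] :=
            (h1.symm.trans h2).trans ((Int.modEq_zero_iff_dvd).mpr hpc)
          exact (Int.modEq_zero_iff_dvd).mp h3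
        have h0 : Av (p ^ (k * n)) k (fun α =>
            ‖G (p ^ (k * n)) (mc 0 k) s' w' α‖ ^ (2 * (tri k - tri l)) *
            ‖G (p ^ (k * n)) (mc 0 k) (cl (p ^ a') (c : ℤ) s) w α‖ ^ (2 * tri l)) = 0 := by
          apply av_one
          intro ζ
          have : G (p ^ (k * n)) (mc 0 k) (cl (p ^ a') (c : ℤ) s) w ζ = 0 := by
            rw [hemp]
            simp [G]
          rw [this, norm_zero, zero_pow (by omega), mul_zero]
        rw [h0]
        positivity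
      · have hne : ¬ (c : ℤ) ≡ 0 [ZMOD (p : ℤ)] := fun h => hpc ((Int.modEq_zero_iff_dvd).mp h)
        have hin : InCl (p ^ a') (c : ℤ) (cl (p ^ a') (c : ℤ) s) := by
          intro x hx
          exact (Finset.mem_filter.mp hx).2
        have h := hbil (c : ℤ) 0 hne (cl (p ^ a') (c : ℤ) s) s' w w' hin hs'
        rw [← hS'] at h
        calc _ = Av (p ^ (k * n)) k (fun α =>
            ‖G (p ^ (k * n)) (mc 0 k) (cl (p ^ a') (c : ℤ) s) w α‖ ^ (2 * tri l) *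
            ‖G (p ^ (k * n)) (mc 0 k) s' w' α‖ ^ (2 * (tri k - tri l))) :=
              av_congr fun ζ => mul_comm _ _
          _ ≤ _ := h
          _ = _ := by ring
    calc _ ≤ (B * (S' ^ (tri k - tri l)) *
        (Sq (p ^ (k * n)) (mc 0 k) (tri k) (p ^ n) (cl (p ^ a') (c : ℤ) s) w) ^ (tri l)) ^
          (1 / (tri l : ℝ)) := by
          refine Real.rpow_le_rpow (av_nonneg fun ζ => by positivity) hb (by positivity)
      _ = _ := by
          rw [Real.mul_rpow (by positivity) (by positivity),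
            Real.mul_rpow hB (by positivity)]
          congr 1
          rw [← Real.rpow_natCast, ← Real.rpow_mul hQ0, mul_one_div_cancel hr0, Real.rpow_one]
  have hsum : ∑ c ∈ Finset.range (p ^ a'),
      (Av (p ^ (k * n)) k (fun α => ‖G (p ^ (k * n)) (mc 0 k) s' w' α‖ ^ (2 * (tri k - tri l)) *
        ‖G (p ^ (k * n)) (mc 0 k) (cl (p ^ a') (c : ℤ) s) w α‖ ^ (2 * tri l))) ^
          (1 / (tri l : ℝ)) ≤
      B ^ (1 / (tri l : ℝ)) * (S' ^ (tri k - tri l)) ^ (1 / (tri l : ℝ)) *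
        Sq (p ^ (k * n)) (mc 0 k) (tri k) (p ^ n) s w := by
    rw [← sqn (p ^ (k * n)) k (mc 0 k) (tri k) (p ^ a') (p ^ n) s w hq (tri_pos hk)
      (by positivity) (by positivity) (pow_dvd_pow _ han), Finset.mul_sum]
    exact Finset.sum_le_sum hcls
  have hr0 : (tri l : ℝ) ≠ 0 := by
    have : (0 : ℝ) < tri l := by exact_mod_cast hr
    exact this.ne'
  have hpow : ∀ x : ℝ, 0 ≤ x → (x ^ (1 / (tri l : ℝ))) ^ (tri l) = x := by
    intro x hx
    rw [← Real.rpow_natCast, ← Real.rpow_mul hx, one_div_mul_cancel hr0, Real.rpow_one]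
  calc _ ≤ D * (B ^ (1 / (tri l : ℝ)) * (S' ^ (tri k - tri l)) ^ (1 / (tri l : ℝ)) *
        Sq (p ^ (k * n)) (mc 0 k) (tri k) (p ^ n) s w) ^ (tri l) := by
        refine mul_le_mul_of_nonneg_left ?_ hD
        exact pow_le_pow_left₀ (Finset.sum_nonneg fun _ _ => Real.rpow_nonneg
          (av_nonneg fun _ => by positivity) _) hsum _
    _ = _ := by
        rw [mul_pow, mul_pow, hpow B hB, hpow _ (by positivity)]
        ring

theorem lma (p k l : ℕ) (hp : p.Prime) (hl : 1 ≤ l) (hlk : l < k) (ldc : LdcStmt p k l)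
    (tra : TraStmt) (sqt : SqtStmt) (sqn : SqnStmt) (lgl : LglStmt) (gpr : GprStmt) :
    LmaStmt p k l := by
  intro ε hε
  obtain ⟨C, hC, h⟩ := ldc ε hε
  refine ⟨C, hC, ?_⟩
  intro n a a' b B hB ha haa han hb hbn hlab hbil c c' hcc s s' w w' hs hs'
  have hp0 : 0 < p := hp.pos
  have hq : 0 < p ^ (k * n) := by positivity
  have hk : 1 ≤ k := by omega
  have hn : 0 < p ^ n := by positivity
  rw [tra _ k c' s s' w w' _ _ hq, ← sqt _ k (tri k) (p ^ n) c' s w hq hn (tri_pos hk),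
    ← sqt _ k (tri k) (p ^ n) c' s' w' hq hn (tri_pos hk)]
  refine lma0 p k l hp hl hlk sqn lgl gpr n a a' b B (C * (p : ℝ) ^ (ε * (a' : ℝ))) hB
    (by positivity) ha haa han hbn (fun d hd t v ht => h _ a a' d ha haa hlab hd t v ht)
    hbil (c - c') ?_ _ _ _ _ (inCl_tr c' hs) ?_
  · intro hd
    apply hcc
    exact ((Int.modEq_iff_dvd).mpr hd).symm
  · have := inCl_tr c' hs'
    rwa [sub_self] at this

end Pool.Agent.VM.H91
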